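import Pool.Agent.H78.S.Targets

/-!
# MP_9d0bb7_lc: row CCJ of sgt_modules, conjugates of the connected component
-/

set_option autoImplicit false

open Set Pool.Agent.H77.BC
open scoped Pointwise

namespace Pool.Agent.H18.S

open Pool.Agent.H78.S

theorem mem_cc {M : Type} {U : RU M} {Γ : Type} [Group Γ] [Cod M Γ] {H : Subgroup Γ} {x : Γ} :
    x ∈ cc U H ↔ ∀ L : Subgroup Γ, (L ≤ H ∧ U.D (L : Set Γ) ∧ L.relIndex H ≠ 0) → x ∈ L := by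
  unfold cc
  rw [Subgroup.mem_sInf]
  exact Iff.rfl

theorem cj_inv_cj {Γ : Type} [Group Γ] (g : Γ) (H : Subgroup Γ) : cj g⁻¹ (cj g H) = H := by
  ext x
  rw [mem_cj, mem_cj]
  have e : g * (g⁻¹ * x * g⁻¹⁻¹) * g⁻¹ = x := by group
  rw [e]

theorem cj_family {M : Type} (U : RU M) {Γ : Type} [Group Γ] [Cod M Γ] [DG U Γ] (g : Γ)
    (H L : Subgroup Γ) (hH : U.D (H : Set Γ))
    (h : L ≤ H ∧ U.D (L : Set Γ) ∧ L.relIndex H ≠ 0) :
    cj g L ≤ cj g H ∧ U.D (cj g L : Set Γ) ∧ (cj g L).relIndex (cj g H) ≠ 0 := by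
  obtain ⟨h1, h2, h3⟩ := h
  obtain ⟨a1, a2, -⟩ := (l_CNJ U) g H hH
  obtain ⟨b1, b2, -⟩ := (l_CNJ U) g L h2
  have h4 : cj g L ≤ cj g H := fun x hx => h1 hx
  refine ⟨h4, b1, ?_⟩
  refine ((l_GRA U) (cj g H) (cj g L) a1 b1 h4).2 ?_
  rw [a2, b2]
  exact ((l_GRA U) H L hH h2 h1).1 h3

theorem pf_CCJ : T_CCJ := by
  intro M U Γ _ _ _ g H hH
  obtain ⟨a1, -, -⟩ := (l_CNJ U) g H hH
  ext x
  rw [mem_cj, mem_cc, mem_cc]
  constructor
  · intro h L hL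
    have h1 := h (cj g L) (cj_family U g H L hH hL)
    rwa [mem_cj] at h1
  · intro h L hL
    have h1 := cj_family U g⁻¹ (cj g H) L a1 hL
    rw [cj_inv_cj] at h1
    have h2 := h (cj g⁻¹ L) h1
    rw [mem_cj] at h2
    have e : g⁻¹ * (g * x * g⁻¹) * g⁻¹⁻¹ = x := by group
    rwa [e] at h2

end Pool.Agent.H18.S
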