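import Pool.Agent.H78.S.Targets

/-!
# MP_9d0bb7_lc: row CFN of sgt_modules, connected groups and finite sets
-/

set_option autoImplicit false

open Set Pool.Agent.H77.BC
open scoped Pointwise

namespace Pool.Agent.H18.S

open Pool.Agent.H78.S

/-- finite index from a function with finitely many values -/
theorem fin_rel {Γ β : Type} [Group Γ] (H L : Subgroup Γ) (φ : Γ → β)
    (hf : (φ '' (H : Set Γ)).Finite)
    (h : ∀ a ∈ H, ∀ b ∈ H, φ a = φ b → a⁻¹ * b ∈ L) : L.relIndex H ≠ 0 := by
  classical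
  have hfin : Finite (φ '' (H : Set Γ)) := hf.to_subtype
  have hch : ∀ v : φ '' (H : Set Γ), ∃ a : Γ, a ∈ H ∧ φ a = v.1 := fun v => v.2
  choose s hs1 hs2 using hch
  let t : φ '' (H : Set Γ) → H ⧸ L.subgroupOf H := fun v => QuotientGroup.mk ⟨s v, hs1 v⟩
  have ht : Function.Surjective t := by
    intro q
    obtain ⟨⟨a, ha⟩, rfl⟩ := QuotientGroup.mk_surjective q
    refine ⟨⟨φ a, a, ha, rfl⟩, ?_⟩
    refine QuotientGroup.eq.2 ?_
    rw [Subgroup.mem_subgroupOf]
    exact h _ (hs1 _) _ ha (hs2 _)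
  have hq : Finite (H ⧸ L.subgroupOf H) := Finite.of_surjective t ht
  have hL : (L.subgroupOf H).FiniteIndex := Subgroup.finiteIndex_of_finite_quotient
  exact hL.index_ne_zero

theorem conn_eq {M : Type} (U : RU M) {Γ β : Type} [Group Γ] [Cod M Γ] [DG U Γ]
    (H L : Subgroup Γ) (hH : Conn U H) (hL : U.D (L : Set Γ)) (hLH : L ≤ H) (φ : Γ → β)
    (hf : (φ '' (H : Set Γ)).Finite)
    (h : ∀ a ∈ H, ∀ b ∈ H, φ a = φ b → a⁻¹ * b ∈ L) : L = H :=
  hH.2 L hLH hL (((l_GRA U) H L hH.1 hL hLH).1 (fin_rel H L φ hf h))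

theorem pf_CFN : T_CFN := by
  intro M U G S _ _ _ _ _ _ hact H hH
  constructor
  · intro F hF hHF h hh y hy
    have hD : U.D {g : G | g • y = y} :=
      D_eqf (DFn_comp (g := fun p : G × S => p.1 • p.2) hact
        (DFn_pair DFn_id (DFn_const y))) (DFn_const y)
    have hL : U.D (Fx H y : Set G) := D_inter hH.1 hD
    have hE := conn_eq U H (Fx H y) hH hL inf_le_left (fun g => g • y)
      (hF.subset (by
        rintro _ ⟨g, hg, rfl⟩
        exact hHF g hg y hy))
      (by
        intro a ha b hb hab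
        refine ⟨H.mul_mem (H.inv_mem ha) hb, ?_⟩
        show (a⁻¹ * b) • y = y
        have hab' : a • y = b • y := hab
        rw [mul_smul, ← hab', inv_smul_smul])
    rw [← hE] at hh
    exact hh.2
  · intro F hF hHF h hh y hy
    let C : Subgroup G := Subgroup.centralizer {y}
    have hD : U.D {g : G | g * y = y * g} :=
      D_eqf (DFn_comp (g := fun p : G × G => p.1 * p.2) DG.mul
        (DFn_pair DFn_id (DFn_const y)))
        (DFn_comp (g := fun p : G × G => p.1 * p.2) DG.mul
        (DFn_pair (DFn_const y) DFn_id))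
    have hC : ∀ g : G, g ∈ C ↔ g * y = y * g := by
      intro g
      constructor
      · intro hg
        exact ((Subgroup.mem_centralizer_iff.1 hg) y (mem_singleton y)).symm
      · intro hg
        refine Subgroup.mem_centralizer_iff.2 ?_
        intro z hz
        rw [mem_singleton_iff] at hz
        rw [hz]
        exact hg.symm
    have hL : U.D ((H ⊓ C : Subgroup G) : Set G) := by
      have e : ((H ⊓ C : Subgroup G) : Set G) = (H : Set G) ∩ {g : G | g * y = y * g} := by
        ext g
        exact ⟨fun hg => ⟨hg.1, (hC g).1 hg.2⟩, fun hg => ⟨hg.1, (hC g).2 hg.2⟩⟩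
      rw [e]
      exact D_inter hH.1 hD
    have hE := conn_eq U H (H ⊓ C) hH hL inf_le_left (fun g => g * y * g⁻¹)
      (hF.subset (by
        rintro _ ⟨g, hg, rfl⟩
        exact hHF g hg y hy))
      (by
        intro a ha b hb hab
        refine ⟨H.mul_mem (H.inv_mem ha) hb, (hC _).2 ?_⟩
        have hab' : a * y * a⁻¹ = b * y * b⁻¹ := hab
        have h1 : b * y = a * y * a⁻¹ * b := by
          rw [hab']
          group
        calc a⁻¹ * b * y = a⁻¹ * (b * y) := by group
          _ = a⁻¹ * (a * y * a⁻¹ * b) := by rw [h1]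
          _ = y * (a⁻¹ * b) := by group)
    rw [← hE] at hh
    exact (hC h).1 hh.2

end Pool.Agent.H18.S
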