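import Pool.Agent.H78.S.Targets

/-!
# MP_9d0bb7_lc: row STD of sgt_modules, definability of stabilisers and kernels
-/

set_option autoImplicit false

open Set Pool.Agent.H77.BC
open scoped Pointwise

namespace Pool.Agent.H18.S

open Pool.Agent.H78.S

theorem pf_STD : T_STD := by
  intro M U G S _ _ _ _ _ _ hact
  constructor
  · intro ι _ x A
    have e : (St G x A : Set G) = {g : G | ∀ i, i ∈ A → g • x i = x i} := rfl
    rw [e]
    refine D_forall_fin (p := fun (i : ι) (g : G) => i ∈ A → g • x i = x i) fun i => ?_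
    refine D_imp D_const ?_
    exact D_eqf (DFn_comp (g := fun p : G × S => p.1 • p.2) hact
      (DFn_pair DFn_id (DFn_const (x i)))) (DFn_const (x i))
  · intro T E hT hE
    have hf : DFn U (fun w : G × (S × S) => (w.2.1, w.1 • w.2.2)) :=
      DFn_pair (DFn_comp DFn_fst DFn_snd)
        (DFn_comp (g := fun p : G × S => p.1 • p.2) hact
          (DFn_pair DFn_fst (DFn_comp DFn_snd DFn_snd)))
    have h1 : U.D {w : G × (S × S) | (w.2.1, w.1 • w.2.2) ∈ E} := DFn_preim hf hE
    have h2 : U.D {w : G × (S × S) | w.2 ∈ E} := DFn_preim DFn_snd hE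
    have h3 : U.D {g : G | ∀ q : S × S, ((q.1, g • q.2) ∈ E → q ∈ E) ∧
        (q ∈ E → (q.1, g • q.2) ∈ E)} :=
      D_forall (p := fun (g : G) (q : S × S) => ((q.1, g • q.2) ∈ E → q ∈ E) ∧
        (q ∈ E → (q.1, g • q.2) ∈ E)) (D_and (D_imp h1 h2) (D_imp h2 h1))
    have h4 := D_inter hT h3
    have e : (kap T E : Set G) = (T : Set G) ∩ {g : G | ∀ q : S × S,
        ((q.1, g • q.2) ∈ E → q ∈ E) ∧ (q ∈ E → (q.1, g • q.2) ∈ E)} := by
      ext g
      constructor
      · rintro ⟨ha, hb⟩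
        refine ⟨ha, fun q => ?_⟩
        have hb' := Subgroup.mem_iInf.1 hb q.1
        have hq := (MulAction.mem_stabilizer_set.1 hb') q.2
        exact ⟨fun h => hq.1 h, fun h => hq.2 h⟩
      · rintro ⟨ha, hb⟩
        refine ⟨ha, Subgroup.mem_iInf.2 fun y => ?_⟩
        rw [MulAction.mem_stabilizer_set]
        intro z
        exact ⟨fun h => (hb (y, z)).1 h, fun h => (hb (y, z)).2 h⟩
    rw [e]
    exact h4

end Pool.Agent.H18.S
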